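import Mathlib
import Pool.Agent.Run7.h402.PG.IfaceP

/-!
# Project PG: the piece ML (fundamental lemma for `K ≤ B log log X` polynomials)
-/

set_option autoImplicit false

open Finset Polynomial

namespace Run7.h586.PG

open Run7.h402.PX Run7.h402.PD Run7.h402.PV Run7.h402.PG
open Pool.Agent.H373R2.T7 (Vz Vz_inv_small Vz_pos lamz pz mem_pz)

noncomputable section

/-- some value is divisible by `p` -/
def Ap {K : ℕ} (P : Fin K → ℤ[X]) (p n : ℕ) : Prop := ∃ i, (p : ℤ) ∣ (P i).eval (n : ℤ)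

instance {K : ℕ} (P : Fin K → ℤ[X]) (p n : ℕ) : Decidable (Ap P p n) := by unfold Ap; infer_instance

theorem nP_eq {K : ℕ} (P : Fin K → ℤ[X]) (p : ℕ) : nP P p = ((range p).filter (fun n => Ap P p n)).card := by
  unfold nP Ap
  congr

theorem eval_mod (f : ℤ[X]) (p n : ℕ) : ((p : ℤ) ∣ f.eval (((n % p : ℕ) : ℤ))) ↔ ((p : ℤ) ∣ f.eval (n : ℤ)) := by
  have h1 : (n : ℤ) = ((n % p : ℕ) : ℤ) + (p : ℤ) * ((n / p : ℕ) : ℤ) := by exact_mod_cast (Nat.mod_add_div n p).symm
  have h2 : (p : ℤ) ∣ (n : ℤ) - ((n % p : ℕ) : ℤ) := ⟨((n / p : ℕ) : ℤ), by linear_combination h1⟩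
  have h3 : (p : ℤ) ∣ f.eval (n : ℤ) - f.eval (((n % p : ℕ) : ℤ)) :=
    h2.trans (Polynomial.sub_dvd_eval_sub _ _ f)
  constructor
  · intro h
    have := dvd_add h3 h
    rwa [sub_add_cancel] at this
  · intro h
    have := dvd_sub h h3
    rwa [sub_sub_cancel] at this

theorem Ap_mod {K : ℕ} (P : Fin K → ℤ[X]) (p n : ℕ) : Ap P p (n % p) ↔ Ap P p n :=
  exists_congr fun i => eval_mod (P i) p n

/-- the roots modulo `p` of a polynomial which does not vanish identically -/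
theorem roots_mod (f : ℤ[X]) (p : ℕ) (hp : p.Prime) (n0 : ℕ) (h0 : ¬ (p : ℤ) ∣ f.eval (n0 : ℤ)) :
    ((range p).filter (fun n : ℕ => (p : ℤ) ∣ f.eval (n : ℤ))).card ≤ f.natDegree := by
  classical
  have : Fact p.Prime := ⟨hp⟩
  set g : (ZMod p)[X] := f.map (Int.castRingHom (ZMod p)) with hg
  have hev : ∀ n : ℕ, g.eval (n : ZMod p) = ((f.eval (n : ℤ) : ℤ) : ZMod p) := by
    intro n
    have h1 := Polynomial.eval_intCast_map (Int.castRingHom (ZMod p)) f (n : ℤ)
    rw [← hg] at h1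
    simp only [Int.cast_natCast, eq_intCast] at h1
    exact h1
  have hg0 : g ≠ 0 := by
    intro h
    apply h0
    rw [← ZMod.intCast_zmod_eq_zero_iff_dvd, ← hev n0, h, eval_zero]
  have h1 : ((range p).filter (fun n : ℕ => (p : ℤ) ∣ f.eval (n : ℤ))).card ≤ g.roots.toFinset.card := by
    apply Finset.card_le_card_of_injOn (fun n : ℕ => (n : ZMod p))
    · intro n hn
      have hn2 := (mem_filter.1 hn).2
      rw [mem_coe, Multiset.mem_toFinset, Polynomial.mem_roots hg0, Polynomial.IsRoot.def, hev n,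
        ZMod.intCast_zmod_eq_zero_iff_dvd]
      exact hn2
    · intro a ha b hb hab
      have ha1 := mem_range.1 (mem_filter.1 ha).1
      have hb1 := mem_range.1 (mem_filter.1 hb).1
      have := (ZMod.natCast_eq_natCast_iff' _ _ _).1 hab
      rwa [Nat.mod_eq_of_lt ha1, Nat.mod_eq_of_lt hb1] at this
  exact h1.trans ((Multiset.toFinset_card_le _).trans ((Polynomial.card_roots' g).trans
    Polynomial.natDegree_map_le))

theorem Ap_card {K D : ℕ} (P : Fin K → ℤ[X]) (hD : ∀ i, (P i).natDegree ≤ D) (p : ℕ) (hp : p.Prime)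
    (h : ¬ ∀ n ∈ range p, Ap P p n) : ((range p).filter (fun n => Ap P p n)).card ≤ D * K := by
  classical
  push Not at h
  obtain ⟨n0, _, h0⟩ := h
  have h1 : (range p).filter (fun n => Ap P p n) ⊆
      (univ : Finset (Fin K)).biUnion fun i => (range p).filter (fun n : ℕ => (p : ℤ) ∣ (P i).eval (n : ℤ)) := by
    intro n hn
    obtain ⟨hn1, i, hi⟩ := mem_filter.1 hn
    exact mem_biUnion.2 ⟨i, mem_univ _, mem_filter.2 ⟨hn1, hi⟩⟩
  refine (card_le_card h1).trans (card_biUnion_le.trans ?_)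
  calc ∑ i : Fin K, ((range p).filter (fun n : ℕ => (p : ℤ) ∣ (P i).eval (n : ℤ))).card
      ≤ ∑ _i : Fin K, D := sum_le_sum fun i _ =>
        (roots_mod (P i) p hp n0 fun hc => h0 ⟨i, hc⟩).trans (hD i)
    _ = D * K := by rw [sum_const, card_univ, Fintype.card_fin, smul_eq_mul, mul_comm]

/-- few small values -/
theorem few_one {K D : ℕ} (P : Fin K → ℤ[X]) (hD : ∀ i, 1 ≤ (P i).natDegree ∧ (P i).natDegree ≤ D) (F : Finset ℕ) :
    (F.filter (fun n : ℕ => ∃ i, (P i).eval (n : ℤ) = 1)).card ≤ D * K := by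
  classical
  have h1 : F.filter (fun n : ℕ => ∃ i, (P i).eval (n : ℤ) = 1) ⊆
      (univ : Finset (Fin K)).biUnion fun i => F.filter (fun n : ℕ => (P i).eval (n : ℤ) = 1) := by
    intro n hn
    obtain ⟨hn1, i, hi⟩ := mem_filter.1 hn
    exact mem_biUnion.2 ⟨i, mem_univ _, mem_filter.2 ⟨hn1, hi⟩⟩
  refine (card_le_card h1).trans (card_biUnion_le.trans ?_)
  calc ∑ i : Fin K, (F.filter (fun n : ℕ => (P i).eval (n : ℤ) = 1)).card
      ≤ ∑ _i : Fin K, D := sum_le_sum fun i _ => ?_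
    _ = D * K := by rw [sum_const, card_univ, Fintype.card_fin, smul_eq_mul, mul_comm]
  set g : ℤ[X] := P i - C 1 with hg
  have hdeg : g.natDegree = (P i).natDegree := Polynomial.natDegree_sub_C
  have hg0 : g ≠ 0 := by
    intro h
    have h2 := (hD i).1
    rw [← hdeg, h, natDegree_zero] at h2
    omega
  have h2 : (F.filter (fun n : ℕ => (P i).eval (n : ℤ) = 1)).card ≤ g.roots.toFinset.card := by
    apply Finset.card_le_card_of_injOn (fun n : ℕ => (n : ℤ))
    · intro n hn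
      have hn2 := (mem_filter.1 hn).2
      rw [mem_coe, Multiset.mem_toFinset, Polynomial.mem_roots hg0, Polynomial.IsRoot.def, hg, eval_sub,
        eval_C, hn2, sub_self]
    · intro a _ b _ hab
      have h3 : ((a : ℕ) : ℤ) = (b : ℤ) := hab
      exact_mod_cast h3
  refine h2.trans ((Multiset.toFinset_card_le _).trans ((Polynomial.card_roots' g).trans ?_))
  rw [hdeg]
  exact (hD i).2

/-- the sum in terms of the sieved set -/
theorem sum_gp {K D : ℕ} (P : Fin K → ℤ[X]) (hD : ∀ i, 1 ≤ (P i).natDegree ∧ (P i).natDegree ≤ D)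
    (z y : ℕ) (hz : 2 ≤ z) (hpos : ∀ i, ∀ n ∈ Icc 1 y, 0 ≤ (P i).eval (n : ℤ)) :
    |∑ n ∈ Icc 1 y, ∏ i, gp z ((P i).eval (n : ℤ)).toNat -
      (Vz z)⁻¹ ^ K * (((Icc 1 y).filter (fun n => ∀ p ∈ pz z, ¬ Ap P p n)).card : ℝ)| ≤
      (Vz z)⁻¹ ^ K * ((D * K : ℕ) : ℝ) := by
  classical
  have hV0 : 0 ≤ (Vz z)⁻¹ ^ K := by
    have := Vz_pos z
    positivity
  have hterm : ∀ n ∈ Icc 1 y, |∏ i, gp z ((P i).eval (n : ℤ)).toNat -
      (if ∀ p ∈ pz z, ¬ Ap P p n then (Vz z)⁻¹ ^ K else 0)| ≤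
      if (∃ i, (P i).eval (n : ℤ) = 1) then (Vz z)⁻¹ ^ K else 0 := by
    intro n hn
    have hdvd : ∀ i, ∀ p : ℕ, (p : ℤ) ∣ (P i).eval (n : ℤ) ↔ p ∣ ((P i).eval (n : ℤ)).toNat := by
      intro i p
      have h1 : ((((P i).eval (n : ℤ)).toNat : ℕ) : ℤ) = (P i).eval (n : ℤ) := Int.toNat_of_nonneg (hpos i n hn)
      constructor
      · intro h
        rw [← h1] at h
        exact_mod_cast h
      · intro h
        rw [← h1]
        exact_mod_cast h
    by_cases hA : ∀ p ∈ pz z, ¬ Ap P p n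
    · rw [if_pos hA]
      by_cases h1 : ∃ i, (P i).eval (n : ℤ) = 1
      · rw [if_pos h1]
        obtain ⟨i, hi⟩ := h1
        have h2 : ∏ i, gp z ((P i).eval (n : ℤ)).toNat = 0 := by
          apply prod_eq_zero (mem_univ i)
          unfold gp
          rw [hi, if_neg (by simp; omega)]
        rw [h2, zero_sub, abs_neg, abs_of_nonneg hV0]
      · rw [if_neg h1]
        have h2 : ∀ i, gp z ((P i).eval (n : ℤ)).toNat = (Vz z)⁻¹ := by
          intro i
          have h3 : ∀ p ∈ pz z, ¬ p ∣ ((P i).eval (n : ℤ)).toNat := fun p hp hd =>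
            hA p hp ⟨i, (hdvd i p).2 hd⟩
          have h4 : z < ((P i).eval (n : ℤ)).toNat := by
            by_contra hc
            push Not at hc
            have h5 : ((P i).eval (n : ℤ)).toNat ≠ 1 := by
              intro h6
              apply h1
              refine ⟨i, ?_⟩
              have := hpos i n hn
              omega
            obtain ⟨q, hq, hqd⟩ := Nat.exists_prime_and_dvd h5
            rcases Nat.eq_zero_or_pos ((P i).eval (n : ℤ)).toNat with h6 | h6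
            · exact h3 2 (mem_pz.2 ⟨hz, Nat.prime_two⟩) (by rw [h6]; exact dvd_zero _)
            · exact h3 q (mem_pz.2 ⟨(Nat.le_of_dvd h6 hqd).trans hc, hq⟩) hqd
          unfold gp
          rw [if_pos h4]
          unfold lamz
          rw [if_pos h3]
        rw [prod_congr rfl fun i _ => h2 i, prod_const, card_univ, Fintype.card_fin, sub_self, abs_zero]
    · rw [if_neg hA]
      push Not at hA
      obtain ⟨p, hp, i, hi⟩ := hA
      have h2 : ∏ i, gp z ((P i).eval (n : ℤ)).toNat = 0 := by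
        apply prod_eq_zero (mem_univ i)
        unfold gp
        split_ifs with h3
        · unfold lamz
          rw [if_neg]
          intro h4
          exact h4 p hp ((hdvd i p).1 hi)
        · rfl
      rw [h2, sub_zero, abs_zero]
      split_ifs
      · exact hV0
      · exact le_rfl
  have e1 : (Vz z)⁻¹ ^ K * (((Icc 1 y).filter (fun n => ∀ p ∈ pz z, ¬ Ap P p n)).card : ℝ) =
      ∑ n ∈ Icc 1 y, (if ∀ p ∈ pz z, ¬ Ap P p n then (Vz z)⁻¹ ^ K else 0) := by
    rw [← sum_filter, sum_const, nsmul_eq_mul, mul_comm]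
  rw [e1, ← sum_sub_distrib]
  refine (abs_sum_le_sum_abs _ _).trans ((sum_le_sum hterm).trans ?_)
  rw [← sum_filter, sum_const, nsmul_eq_mul, mul_comm]
  apply mul_le_mul_of_nonneg_left _ hV0
  exact_mod_cast few_one P hD (Icc 1 y)

theorem t_ML : S_ML := by
  intro B E A D hE
  obtain ⟨L0, hL0⟩ := big_ev (D * B) E (A + 1)
  obtain ⟨N0, hN0⟩ := Vz_inv_small E
  refine ⟨max N0 (⌈Real.exp L0⌉₊ + 1), fun X hX K hK hKB P hD hpos y hy => ?_⟩
  have hXN : N0 ≤ X := (le_max_left _ _).trans hX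
  have hX1 : ⌈Real.exp L0⌉₊ + 1 ≤ X := (le_max_right _ _).trans hX
  have hXpos : (0 : ℝ) < X := by
    have : 1 ≤ X := by omega
    exact_mod_cast this
  set L := Real.log X with hL
  have hLX : L0 ≤ L := by
    rw [hL, Real.le_log_iff_exp_le hXpos]
    have h1 := Nat.le_ceil (Real.exp L0)
    have h2 : ((⌈Real.exp L0⌉₊ : ℕ) : ℝ) ≤ X := by exact_mod_cast (by omega : ⌈Real.exp L0⌉₊ ≤ X)
    linarith
  have bg := hL0 L hLX
  have hexp : Real.exp L = X := Real.exp_log hXpos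
  obtain ⟨hz1, hz2, hz3⟩ := zL_bounds bg hE
  have h1000 := bg.b1
  set z := zL E L with hz
  have hV : (Vz z)⁻¹ ≤ L := hN0 X hXN z hz1 hz2
  have hz2' : 2 ≤ z := by
    have h1 : L ≤ L ^ E := by
      calc L = L ^ 1 := (pow_one L).symm
        _ ≤ L ^ E := pow_le_pow_right₀ (by linarith) hE
    have : (2 : ℝ) ≤ z := by linarith
    exact_mod_cast this
  have hD1 : 1 ≤ D := (hD ⟨0, hK⟩).1.trans (hD ⟨0, hK⟩).2
  have hDK : 1 ≤ D * K := Nat.mul_pos hD1 hK
  have hlogL : 0 ≤ Real.log L := by linarith [bg.b0]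
  have hKB' : ((D * K : ℕ) : ℝ) ≤ ((D * B : ℕ) : ℝ) * Real.log L := by
    push_cast
    rw [mul_assoc]
    exact mul_le_mul_of_nonneg_left hKB (Nat.cast_nonneg _)
  have hVp := Vz_pos z
  have hV0 : 0 ≤ (Vz z)⁻¹ ^ K := by positivity
  have hV1 : 1 ≤ (Vz z)⁻¹ := by
    rw [one_le_inv₀ hVp]
    unfold Vz
    apply prod_le_one
    · intro p hp
      have hp2 := (mem_pz.1 hp).2.two_le
      have : (1 : ℝ) / p ≤ 1 := by
        rw [div_le_one (by positivity)]
        exact_mod_cast (by omega : 1 ≤ p)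
      linarith
    · intro p _
      have : (0 : ℝ) ≤ 1 / p := by positivity
      linarith
  have hVK : (Vz z)⁻¹ ^ K ≤ (Vz z)⁻¹ ^ (D * K) := pow_le_pow_right₀ hV1 (Nat.le_mul_of_pos_left _ hD1)
  have hposy : ∀ i, ∀ n ∈ Icc 1 y, 0 ≤ (P i).eval (n : ℤ) := by
    intro i n hn
    rw [mem_Icc] at hn
    exact hpos i n (mem_Icc.2 ⟨hn.1, hn.2.trans hy⟩)
  have h1 := sum_gp P hD z y hz2' hposy
  have herr := sieve_err bg hE hKB' X hexp hV y hy
  set r := ⌈√L⌉₊ with hr
  have hr1 : 1 ≤ r := by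
    rw [hr]
    apply Nat.ceil_pos.2
    exact Real.sqrt_pos.2 (by linarith)
  rw [← hz] at herr
  set T1 := (((z : ℝ) + 1) * ((D * K : ℕ) : ℝ)) ^ r with hT1
  set T2 := 2 * (y : ℝ) * Real.exp (3 * (((D * K : ℕ) : ℝ) * (1 + Real.log z)) - r) with hT2
  have hT10 : 0 ≤ T1 := by positivity
  have hT20 : 0 ≤ T2 := by positivity
  have hDKT : ((D * K : ℕ) : ℝ) ≤ T1 := by
    have hb : (1 : ℝ) ≤ ((z : ℝ) + 1) * ((D * K : ℕ) : ℝ) := by
      have h2 : (1 : ℝ) ≤ ((D * K : ℕ) : ℝ) := by exact_mod_cast hDK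
      have h3 : (0 : ℝ) ≤ z := Nat.cast_nonneg _
      nlinarith
    calc ((D * K : ℕ) : ℝ) ≤ ((z : ℝ) + 1) * ((D * K : ℕ) : ℝ) := by
          have h3 : (0 : ℝ) ≤ z := Nat.cast_nonneg _
          have h2 : (0 : ℝ) ≤ ((D * K : ℕ) : ℝ) := Nat.cast_nonneg _
          nlinarith
      _ = (((z : ℝ) + 1) * ((D * K : ℕ) : ℝ)) ^ 1 := (pow_one _).symm
      _ ≤ T1 := pow_le_pow_right₀ hb hr1
  -- the main term
  have hmain : |(Vz z)⁻¹ ^ K * (((Icc 1 y).filter (fun n => ∀ p ∈ pz z, ¬ Ap P p n)).card : ℝ) -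
      lS K (nP P) z * y| ≤ (Vz z)⁻¹ ^ K * (T1 + T2) := by
    by_cases hfull : ∃ p ∈ pz z, ∀ n ∈ range p, Ap P p n
    · obtain ⟨p, hp, hpf⟩ := hfull
      have hpp := (mem_pz.1 hp).2
      have e1 : (Icc 1 y).filter (fun n => ∀ p ∈ pz z, ¬ Ap P p n) = ∅ := by
        apply filter_eq_empty_iff.2
        intro n _ hc
        exact hc p hp ((Ap_mod P p n).1 (hpf (n % p) (mem_range.2 (Nat.mod_lt _ hpp.pos))))
      have e2 : lS K (nP P) z = 0 := by
        rw [lS_eq]
        have : ∏ p ∈ pz z, (1 - (nP P p : ℝ) / p) = 0 := by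
          apply prod_eq_zero hp
          rw [nP_eq, filter_true_of_mem hpf, card_range, div_self (by exact_mod_cast hpp.pos.ne'), sub_self]
        rw [this, mul_zero]
      rw [e1, e2, card_empty, Nat.cast_zero, mul_zero, zero_mul, sub_zero, abs_zero]
      positivity
    · have hcard : ∀ p ∈ pz z, ((range p).filter (fun b => Ap P p b)).card ≤ D * K := fun p hp =>
        Ap_card P (fun i => (hD i).2) p (mem_pz.1 hp).2 fun h => hfull ⟨p, hp, h⟩
      have k1 := multi_sieveG (D * K) hDK (Ap P) (fun p n => Ap_mod P p n) y z r hz1 hcard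
      rw [lS_eq]
      have e1 : ∏ p ∈ pz z, (1 - (nP P p : ℝ) / p) =
          ∏ p ∈ pz z, (1 - (((range p).filter (fun b => Ap P p b)).card : ℝ) / p) :=
        prod_congr rfl fun p _ => by rw [nP_eq]
      rw [e1]
      set Q := ∏ p ∈ pz z, (1 - (((range p).filter (fun b => Ap P p b)).card : ℝ) / p) with hQ
      have e2 : ∀ c : ℝ, (Vz z)⁻¹ ^ K * c - (Vz z)⁻¹ ^ K * Q * y = (Vz z)⁻¹ ^ K * (c - y * Q) := by
        intro c; ring
      rw [e2, abs_mul, abs_of_nonneg hV0]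
      exact mul_le_mul_of_nonneg_left k1 hV0
  have hA1 : 2 * (X / L ^ (A + 1)) ≤ X / L ^ A := by
    have hLp : (0 : ℝ) < L := by linarith
    rw [pow_succ, ← div_div, ← mul_div_assoc, div_le_iff₀ hLp, mul_comm 2]
    apply mul_le_mul_of_nonneg_left (by linarith) (by positivity)
  calc |∑ n ∈ Icc 1 y, ∏ i, gp z ((P i).eval (n : ℤ)).toNat - lS K (nP P) z * y|
      = |(∑ n ∈ Icc 1 y, ∏ i, gp z ((P i).eval (n : ℤ)).toNat -
          (Vz z)⁻¹ ^ K * (((Icc 1 y).filter (fun n => ∀ p ∈ pz z, ¬ Ap P p n)).card : ℝ)) +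
          ((Vz z)⁻¹ ^ K * (((Icc 1 y).filter (fun n => ∀ p ∈ pz z, ¬ Ap P p n)).card : ℝ) - lS K (nP P) z * y)| := by
        congr 1; ring
    _ ≤ (Vz z)⁻¹ ^ K * ((D * K : ℕ) : ℝ) + (Vz z)⁻¹ ^ K * (T1 + T2) := (abs_add_le _ _).trans (add_le_add h1 hmain)
    _ ≤ (Vz z)⁻¹ ^ (D * K) * (T1 + T2) + (Vz z)⁻¹ ^ (D * K) * (T1 + T2) := by
        apply add_le_add
        · apply mul_le_mul hVK (by linarith) (Nat.cast_nonneg _) (by positivity)
        · exact mul_le_mul_of_nonneg_right hVK (by linarith)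
    _ ≤ X / L ^ (A + 1) + X / L ^ (A + 1) := by
        have : (Vz z)⁻¹ ^ (D * K) * (T1 + T2) ≤ X / L ^ (A + 1) := by
          rw [mul_add]
          exact herr
        linarith
    _ ≤ X / L ^ A := by linarith

end

end Run7.h586.PG
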