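import Mathlib
import Pool.Agent.Run7.h402.PG.Iface
import Pool.Agent.Run7.h402.PG.IfaceP

/-!
# Project PG: the piece PE (energy of the values of polynomials)
-/

set_option autoImplicit false

open Finset Polynomial

namespace Run7.h586.PG

open Run7.h402.PG (S_SU S_PE)
open Pool.Agent.TH212.EH (En)
open Pool.Agent.TH872.Sq (SD)

/-- raising the order -/
theorem raise (hSU : S_SU) (T : ℕ) (v : Fin T → ℤ) (p j : ℕ) :
    (En (p + j) v : ℝ) ≤ (T : ℝ) ^ (2 * j) * En p v := by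
  induction j with
  | zero => simp
  | succ j ih =>
    have h1 : En (p + j + 1) v ≤ T ^ 2 * En (p + j) v := hSU (p + j) T v
    have h2 : (En (p + j + 1) v : ℝ) ≤ (T : ℝ) ^ 2 * En (p + j) v := by exact_mod_cast h1
    calc (En (p + (j + 1)) v : ℝ) ≤ (T : ℝ) ^ 2 * En (p + j) v := h2
      _ ≤ (T : ℝ) ^ 2 * ((T : ℝ) ^ (2 * j) * En p v) := by
          apply mul_le_mul_of_nonneg_left ih (by positivity)
      _ = (T : ℝ) ^ (2 * (j + 1)) * En p v := by ring

/-- one degree -/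
def Dg (d p : ℕ) (C : ℝ) : Prop := ∀ T : ℕ, ∀ f : ℤ[X], f.natDegree = d →
  (En p (fun t : Fin T => f.eval ((t : ℕ) : ℤ)) : ℝ) * (T : ℝ) ^ d ≤ C * (T : ℝ) ^ (2 * p)

theorem Dg.up (hSU : S_SU) {d p : ℕ} {C : ℝ} (h : Dg d p C) (j : ℕ) {C' : ℝ} (hC : C ≤ C') :
    Dg d (p + j) C' := by
  intro T f hf
  have h1 := h T f hf
  have h2 := raise hSU T (fun t : Fin T => f.eval ((t : ℕ) : ℤ)) p j
  calc (En (p + j) (fun t : Fin T => f.eval ((t : ℕ) : ℤ)) : ℝ) * (T : ℝ) ^ d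
      ≤ ((T : ℝ) ^ (2 * j) * En p (fun t : Fin T => f.eval ((t : ℕ) : ℤ))) * (T : ℝ) ^ d :=
        mul_le_mul_of_nonneg_right h2 (by positivity)
    _ = (T : ℝ) ^ (2 * j) * (En p (fun t : Fin T => f.eval ((t : ℕ) : ℤ)) * (T : ℝ) ^ d) := by ring
    _ ≤ (T : ℝ) ^ (2 * j) * (C * (T : ℝ) ^ (2 * p)) := mul_le_mul_of_nonneg_left h1 (by positivity)
    _ = C * (T : ℝ) ^ (2 * (p + j)) := by ring
    _ ≤ C' * (T : ℝ) ^ (2 * (p + j)) := mul_le_mul_of_nonneg_right hC (by positivity)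

theorem Dg_one : Dg 1 1 1 := by
  intro T f hf
  have hinj : Function.Injective fun t : Fin T => f.eval ((t : ℕ) : ℤ) := by
    intro a b hab
    have hab' : f.eval ((a : ℕ) : ℤ) = f.eval ((b : ℕ) : ℤ) := hab
    have h1 : f = C (f.coeff 1) * X + C (f.coeff 0) := eq_X_add_C_of_natDegree_le_one hf.le
    have h2 : f.coeff 1 ≠ 0 := by
      have h3 : f ≠ 0 := by
        intro h; rw [h, natDegree_zero] at hf; omega
      have := leadingCoeff_ne_zero.2 h3
      rwa [leadingCoeff, hf] at this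
    rw [h1] at hab'
    simp only [eval_add, eval_mul, eval_C, eval_X] at hab'
    have h4 : f.coeff 1 * ((a : ℕ) : ℤ) = f.coeff 1 * ((b : ℕ) : ℤ) := by linarith
    have h5 := mul_left_cancel₀ h2 h4
    apply Fin.ext
    exact_mod_cast h5
  have h1 : En 1 (fun t : Fin T => f.eval ((t : ℕ) : ℤ)) ≤ T := by
    unfold En
    have h2 := Nat.card_le_card_of_injective
      (fun q : {q : (Fin 1 → Fin T) × (Fin 1 → Fin T) // ∑ j, f.eval (((q.1 j : Fin T) : ℕ) : ℤ) = ∑ j, f.eval (((q.2 j : Fin T) : ℕ) : ℤ)} => q.1.1 0)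
      (by
        rintro ⟨⟨a, c⟩, h1⟩ ⟨⟨a', c'⟩, h2⟩ h3
        have h3' : a 0 = a' 0 := h3
        simp only [univ_unique, Fin.default_eq_zero, Fin.isValue, sum_singleton] at h1 h2
        have h4 : a 0 = c 0 := hinj h1
        have h5 : a' 0 = c' 0 := hinj h2
        have e1 : a = a' := by
          funext j
          rw [Subsingleton.elim j 0]
          exact h3'
        have e2 : c = c' := by
          funext j
          rw [Subsingleton.elim j 0, ← h4, ← h5]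
          exact h3'
        subst e1
        subst e2
        rfl)
    rwa [Nat.card_eq_fintype_card (α := Fin T), Fintype.card_fin] at h2
  have h2 : (En 1 (fun t : Fin T => f.eval ((t : ℕ) : ℤ)) : ℝ) ≤ T := by exact_mod_cast h1
  rw [pow_one, one_mul]
  calc (En 1 (fun t : Fin T => f.eval ((t : ℕ) : ℤ)) : ℝ) * T ≤ T * T :=
        mul_le_mul_of_nonneg_right h2 (Nat.cast_nonneg _)
    _ = (T : ℝ) ^ (2 * 1) := by ring

theorem SD_full (k n : ℕ) : n ∈ SD 2 (fun _ => range 2) k ↔ n < 2 ^ k := by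
  unfold SD
  rw [mem_filter, mem_range]
  refine ⟨fun h => h.1, fun h => ⟨h, fun i _ => ?_⟩⟩
  rw [mem_range]
  exact Nat.mod_lt _ (by norm_num)

theorem Dg_two (d : ℕ) (hd : 2 ≤ d) : ∃ p : ℕ, ∃ C : ℝ, 1 ≤ p ∧ 0 < C ∧ Dg d p C := by
  obtain ⟨p, C, hp, hC, h⟩ := Pool.Agent.Run7.h536.poly_energy 2 le_rfl d hd
  refine ⟨p, C * 2 ^ (2 * p), hp, by positivity, fun T f hf => ?_⟩
  rcases Nat.eq_zero_or_pos T with rfl | hT
  · rw [Nat.cast_zero, zero_pow (by omega : d ≠ 0), zero_pow (by omega : 2 * p ≠ 0), mul_zero, mul_zero]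
  obtain ⟨k, hk1, hk2⟩ : ∃ k, T ≤ 2 ^ k ∧ 2 ^ k < 2 * T := by
    refine ⟨Nat.clog 2 T, Nat.le_pow_clog (by norm_num) T, ?_⟩
    rcases Nat.lt_or_ge 1 T with h1 | h1
    · have h2 := Nat.pow_pred_clog_lt_self (b := 2) (by norm_num) h1
      have h3 : 0 < Nat.clog 2 T := Nat.clog_pos (by norm_num) (by omega)
      have h4 : 2 ^ Nat.clog 2 T = 2 ^ (Nat.clog 2 T).pred * 2 := by
        rw [← pow_succ]
        congr 1
        have := Nat.succ_pred_eq_of_pos h3
        omega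
      rw [h4]
      omega
    · have : T = 1 := by omega
      subst this
      simp
  have h1 := h k (fun _ => range 2) (fun i _ => ⟨subset_rfl, by rw [card_range]⟩) f hf
  have hcard : Fintype.card {n // n ∈ SD 2 (fun _ => range 2) k} = 2 ^ k := by
    rw [Fintype.card_coe]
    have : SD 2 (fun _ => range 2) k = range (2 ^ k) := by
      ext n
      rw [SD_full, mem_range]
    rw [this, card_range]
  rw [hcard] at h1
  have h2 : En p (fun t : Fin T => f.eval ((t : ℕ) : ℤ)) ≤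
      En p (fun i : {n // n ∈ SD 2 (fun _ => range 2) k} => f.eval ((i.1 : ℕ) : ℤ)) := by
    apply Pool.Agent.Run7.h536.En_mono p
      (fun i : {n // n ∈ SD 2 (fun _ => range 2) k} => f.eval ((i.1 : ℕ) : ℤ))
      (fun t : Fin T => (⟨(t : ℕ), (SD_full k t).2 (t.2.trans_le hk1)⟩ : {n // n ∈ SD 2 (fun _ => range 2) k}))
    intro a b hab
    simp only [Subtype.mk.injEq] at hab
    exact Fin.ext hab
  have h2r : (En p (fun t : Fin T => f.eval ((t : ℕ) : ℤ)) : ℝ) ≤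
      En p (fun i : {n // n ∈ SD 2 (fun _ => range 2) k} => f.eval ((i.1 : ℕ) : ℤ)) := by exact_mod_cast h2
  have hTk : (T : ℝ) ≤ 2 ^ k := by exact_mod_cast hk1
  have hkT : (2 : ℝ) ^ k ≤ 2 * T := by exact_mod_cast hk2.le
  calc (En p (fun t : Fin T => f.eval ((t : ℕ) : ℤ)) : ℝ) * (T : ℝ) ^ d
      ≤ (En p (fun i : {n // n ∈ SD 2 (fun _ => range 2) k} => f.eval ((i.1 : ℕ) : ℤ)) : ℝ) * ((2 : ℝ) ^ k) ^ d := by
        apply mul_le_mul h2r (pow_le_pow_left₀ (Nat.cast_nonneg _) hTk _) (by positivity) (Nat.cast_nonneg _)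
    _ = (En p (fun i : {n // n ∈ SD 2 (fun _ => range 2) k} => f.eval ((i.1 : ℕ) : ℤ)) : ℝ) * ((2 ^ (d * k) : ℕ) : ℝ) := by
        rw [← pow_mul, mul_comm k d]
        push_cast
        rfl
    _ ≤ C * (((2 ^ k : ℕ) : ℝ)) ^ (2 * p) := h1
    _ ≤ C * (2 * T) ^ (2 * p) := by
        apply mul_le_mul_of_nonneg_left _ hC.le
        apply pow_le_pow_left₀ (Nat.cast_nonneg _)
        push_cast
        exact hkT
    _ = C * 2 ^ (2 * p) * (T : ℝ) ^ (2 * p) := by rw [mul_pow]; ring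

theorem t_PE (hSU : S_SU) : S_PE := by
  intro D
  suffices h : ∃ p : ℕ, ∃ C : ℝ, 1 ≤ p ∧ 0 < C ∧ ∀ d, 1 ≤ d → d ≤ D → Dg d p C by
    obtain ⟨p, C, hp, hC, h⟩ := h
    exact ⟨p, C, hp, hC, fun T f h1 h2 => h f.natDegree h1 h2 T f rfl⟩
  induction D with
  | zero => exact ⟨1, 1, le_rfl, one_pos, fun d h1 h2 => by omega⟩
  | succ D ih =>
    obtain ⟨p0, C0, hp0, hC0, h0⟩ := ih
    obtain ⟨p1, C1, hp1, hC1, h1⟩ : ∃ p : ℕ, ∃ C : ℝ, 1 ≤ p ∧ 0 < C ∧ Dg (D + 1) p C := by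
      rcases Nat.eq_zero_or_pos D with rfl | hD
      · exact ⟨1, 1, le_rfl, one_pos, Dg_one⟩
      · exact Dg_two (D + 1) (by omega)
    refine ⟨p0 + p1, max C0 C1, by omega, lt_max_of_lt_left hC0, fun d hd1 hd2 => ?_⟩
    rcases Nat.lt_or_ge D d with hd | hd
    · have : d = D + 1 := by omega
      subst this
      rw [add_comm p0 p1]
      exact h1.up hSU p0 (le_max_right _ _)
    · exact (h0 d hd1 hd).up hSU p1 (le_max_left _ _)

end Run7.h586.PG
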